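import Pool.Agent.LWC.W8

/-!
# MP_3ca0d5_co: a closure for cycles through `k` prescribed edges

`KStep k G H`: either `H` is obtained from `G` by joining two vertices which have at least `k`
common neighbours, or `H` is obtained from `G` by adding edges inside a vertex set which induces a
`(2k-2)`-connected subgraph of `G`.

If `H` is obtained from `G` by successive steps, then any `k ≥ 2` edges of `G` lie on a common
cycle of `G` if and only if they lie on a common cycle of `H`.
-/

set_option autoImplicit false

namespace Pool.Agent.Results.MP_3ca0d5_co.Closure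

open SimpleGraph Pool.Agent.LWC

theorem result : ∀ (V : Type) [Fintype V] (k : ℕ) (G H : SimpleGraph V), 2 ≤ k →
    Relation.ReflTransGen (KStep k) G H →
    ∀ E : Finset (Sym2 V), E.card = k → (∀ e ∈ E, e ∈ G.edgeSet) →
      ((∃ (u : V) (p : G.Walk u u), p.IsCycle ∧ ∀ e ∈ E, e ∈ p.edges) ↔
        (∃ (u : V) (p : H.Walk u u), p.IsCycle ∧ ∀ e ∈ E, e ∈ p.edges)) :=
  fun _ _ _ _ _ hk h _ hE hEG => hasCyc_iff_k h hk hE hEG

end Pool.Agent.Results.MP_3ca0d5_co.Closure
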