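import Pool.Agent.LWC.F

/-!
# MP_3ca0d5_co: the Lovasz-Woodall statement under a degree sum condition on independent triples
-/

set_option autoImplicit false

namespace Pool.Agent.Results.MP_3ca0d5_co.DegreeSum

open SimpleGraph Pool.Agent.LWC

theorem result : ∀ (V : Type) [Fintype V] (G : SimpleGraph V) (k : ℕ) (E : Finset (Sym2 V)),
    2 ≤ k → 5 * k ≤ Fintype.card V + 4 →
    (∀ S : Finset V, S.card < k → (G.induce ((↑S : Set V)ᶜ)).Connected) →
    (∀ x y z : V, x ≠ y → x ≠ z → y ≠ z → ¬ G.Adj x y → ¬ G.Adj x z → ¬ G.Adj y z →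
      Fintype.card V + 3 * k ≤
        (G.neighborSet x).ncard + (G.neighborSet y).ncard + (G.neighborSet z).ncard + 5) →
    (∀ e ∈ E, e ∈ G.edgeSet) → E.card = k →
    (∀ e ∈ E, ∀ f ∈ E, e ≠ f → ∀ v : V, v ∈ e → v ∉ f) →
    (¬ ∃ (u : V) (p : G.Walk u u), p.IsCycle ∧ ∀ e ∈ E, e ∈ p.edges) →
    Odd k ∧ ¬ (G.deleteEdges (↑E : Set (Sym2 V))).Connected :=
  fun _ _ G _ _ hk hn hconn hdeg hEG hE hind hno => degMain hk hn hE hind G hconn hdeg hEG hno

end Pool.Agent.Results.MP_3ca0d5_co.DegreeSum
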