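import Pool.Agent.LWC.H8

/-!
# MP_3ca0d5_co: the Lovasz-Woodall statement for dense graphs
-/

set_option autoImplicit false

namespace Pool.Agent.Results.MP_3ca0d5_co.Dense

open SimpleGraph Pool.Agent.LWC

theorem result : ∀ (V : Type) [Fintype V] (G : SimpleGraph V) (m k : ℕ) (E : Finset (Sym2 V)),
    1 ≤ m → 12 * (m + 1) ^ 2 ≤ k →
    (∀ v : V, Fintype.card V + (m + 1) ^ 3 * k ≤ (m + 1) * (G.neighborSet v).ncard) →
    (∀ S : Finset V, S.card < k → (G.induce ((↑S : Set V)ᶜ)).Connected) →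
    (∀ e ∈ E, e ∈ G.edgeSet) → E.card = k →
    (∀ e ∈ E, ∀ f ∈ E, e ≠ f → ∀ v : V, v ∈ e → v ∉ f) →
    (¬ ∃ (u : V) (p : G.Walk u u), p.IsCycle ∧ ∀ e ∈ E, e ∈ p.edges) →
    Odd k ∧ ¬ (G.deleteEdges (↑E : Set (Sym2 V))).Connected :=
  fun _ _ G _ _ _ hm hk hdeg hconn hEG hE hind hno =>
    denseMain hm hk hE hind G hconn hdeg hEG hno

end Pool.Agent.Results.MP_3ca0d5_co.Dense
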