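import Pool.Agent.LWC.W8

/-!
# MP_3ca0d5_co: graphs whose closure is a union of few highly connected parts
-/

set_option autoImplicit false

namespace Pool.Agent.Results.MP_3ca0d5_co.Parts

open SimpleGraph Pool.Agent.LWC

theorem result : ∀ (V : Type) [Fintype V] (G H : SimpleGraph V) (m k : ℕ) (E : Finset (Sym2 V))
    (σ : V → Fin m), 2 ≤ k →
    (∀ S : Finset V, S.card < k → (G.induce ((↑S : Set V)ᶜ)).Connected) →
    Relation.ReflTransGen (KStep k) G H →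
    (∀ i, ConnU H {v | σ v = i} (2 * k - 2) ∨ H.IsClique {v | σ v = i}) →
    (m ≤ 2 ∨ (12 * (m + 1) ^ 2 ≤ k ∧ ∀ v, k ≤ {u | σ u = σ v}.ncard)) →
    (∀ e ∈ E, e ∈ G.edgeSet) → E.card = k →
    (∀ e ∈ E, ∀ f ∈ E, e ≠ f → ∀ v : V, v ∈ e → v ∉ f) →
    (¬ ∃ (u : V) (p : G.Walk u u), p.IsCycle ∧ ∀ e ∈ E, e ∈ p.edges) →
    Odd k ∧ ¬ (G.deleteEdges (↑E : Set (Sym2 V))).Connected :=
  fun _ _ _ _ _ _ _ _ hk hconn hstep hσ hm hEG hE hind hno =>
    partsMain_k hk hconn hstep hσ hm hEG hE hind hno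

end Pool.Agent.Results.MP_3ca0d5_co.Parts
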